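import Pool.Agent.helper7.UL.SpecN

set_option autoImplicit false

namespace Pool.Agent.UL

open FirstOrder Language

theorem NAT (h1 : NUN_stmt) (h2 : NPL_stmt) : NAT_stmt := by
  intro α _ s hs
  obtain ⟨S, hS, hS2, rfl⟩ := hs.isProperSemilinearSet
  exact h1 α S hS fun t ht => h2 α t (hS2 t ht)

end Pool.Agent.UL
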