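import Pool.Agent.helper7.UL.Spec

set_option autoImplicit false

namespace Pool.Agent.UL

open Finset

theorem ROW_tail_cons (R cur p q : ℕ) (ps qs : List ℕ) :
    rowTail R cur (p :: ps) (q :: qs) = step R p cur q :: rowTail R (step R p cur q) ps qs := rfl

theorem ROW_tail_nil (R cur : ℕ) (qs : List ℕ) : rowTail R cur [] qs = [] := by
  cases qs <;> rfl

theorem ROW_tail_nil' (R cur : ℕ) (ps : List ℕ) : rowTail R cur ps [] = [] := by
  cases ps <;> rfl

theorem ROW_len (R : ℕ) (ps : List ℕ) : ∀ (cur : ℕ) (qs : List ℕ),
    (rowTail R cur ps qs).length = min ps.length qs.length := by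
  induction ps with
  | nil =>
    intro cur qs
    rw [ROW_tail_nil]
    simp
  | cons p ps ih =>
    intro cur qs
    cases qs with
    | nil =>
      rw [ROW_tail_nil']
      simp
    | cons q qs =>
      rw [ROW_tail_cons, List.length_cons, ih, List.length_cons, List.length_cons]
      omega

theorem ROW_get (R : ℕ) (ps : List ℕ) : ∀ (cur : ℕ) (qs : List ℕ) (j : ℕ), j < ps.length →
    j < qs.length → (cur :: rowTail R cur ps qs).getD (j + 1) 0 =
      step R (ps.getD j 0) ((cur :: rowTail R cur ps qs).getD j 0) (qs.getD j 0) := by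
  induction ps with
  | nil =>
    intro cur qs j hj
    simp at hj
  | cons p ps ih =>
    intro cur qs j hj hj'
    cases qs with
    | nil => simp at hj'
    | cons q qs =>
      rw [List.getD_cons_succ, ROW_tail_cons]
      cases j with
      | zero =>
        rw [List.getD_cons_zero, List.getD_cons_zero, List.getD_cons_zero, List.getD_cons_zero]
      | succ j =>
        rw [ih _ _ j (by simpa using hj) (by simpa using hj'), List.getD_cons_succ, List.getD_cons_succ,
          List.getD_cons_succ]

theorem ROW_last (l : List ℕ) : l.getLastD 0 = l.getD (l.length - 1) 0 := by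
  rw [List.getLastD_eq_getLast?, List.getLast?_eq_getElem?, List.getD_eq_getElem?_getD]

theorem ROW_head (l : List ℕ) : l.headD 0 = l.getD 0 0 := by
  cases l <;> rfl

theorem ROW_drop (l : List ℕ) (j : ℕ) : (l.drop 1).getD j 0 = l.getD (j + 1) 0 := by
  cases l with
  | nil => simp
  | cons a l => rfl

theorem ROW_rep (n j : ℕ) : (List.replicate n 0).getD j 0 = 0 := by
  rw [List.getD_eq_getElem?_getD, List.getElem?_replicate]
  split_ifs <;> rfl

theorem ROW_lens (R o : ℕ) (ho : 1 ≤ o) (A : ℕ) : (rows R o A).1.length = o ∧
    (rows R o A).2.length = o := by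
  induction A with
  | zero =>
    constructor
    · show (2 ^ R :: rowTail R (2 ^ R) (List.replicate (o - 1) 0) (List.replicate (o - 1) 0)).length = o
      rw [List.length_cons, ROW_len, List.length_replicate]
      omega
    · show (List.replicate o 0).length = o
      rw [List.length_replicate]
  | succ A ih =>
    obtain ⟨h1, h2⟩ := ih
    constructor
    · show (step R (sh R ((rows R o A).2.getLastD 0)) (sh R ((rows R o A).1.getLastD 0))
        ((rows R o A).2.headD 0) :: rowTail R _ (rows R o A).1 ((rows R o A).2.drop 1)).length = o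
      rw [List.length_cons, ROW_len, List.length_drop, h1, h2]
      omega
    · exact h1

theorem ROW_second (R o : ℕ) (A j : ℕ) : (rows R o A).2.getD j 0 =
    if A = 0 then 0 else cell R o j (A - 1) := by
  cases A with
  | zero =>
    rw [if_pos rfl]
    exact ROW_rep o j
  | succ A =>
    rw [if_neg (Nat.succ_ne_zero A)]
    rfl

theorem ROW_next (R o A : ℕ) : (rows R o (A + 1)).1 =
    step R (sh R ((rows R o A).2.getLastD 0)) (sh R ((rows R o A).1.getLastD 0))
        ((rows R o A).2.headD 0) ::
      rowTail R (step R (sh R ((rows R o A).2.getLastD 0)) (sh R ((rows R o A).1.getLastD 0))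
        ((rows R o A).2.headD 0)) (rows R o A).1 ((rows R o A).2.drop 1) := rfl

theorem ROW : ROW_stmt := by
  intro R o ho
  have hlen := ROW_lens R o ho
  refine ⟨fun A => ?_, fun A => rfl, rfl, rfl, fun j hj => ?_, fun A => ?_, fun A j hj => ?_⟩
  · apply List.ext_getElem
    · rw [(hlen A).1, List.length_map, List.length_range]
    · intro j h1 h2
      rw [List.getElem_map, List.getElem_range]
      show _ = (rows R o A).1.getD j 0
      rw [List.getD_eq_getElem _ _ h1]
  · have h1 := ROW_get R (List.replicate (o - 1) 0) (2 ^ R) (List.replicate (o - 1) 0) j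
      (by rw [List.length_replicate]; omega) (by rw [List.length_replicate]; omega)
    rw [ROW_rep] at h1
    exact h1
  · show (rows R o (A + 1)).1.getD 0 0 = _
    rw [ROW_next, List.getD_cons_zero, ROW_last, ROW_last, ROW_head, (hlen A).1, (hlen A).2,
      ROW_second, ROW_second]
    rfl
  · have h1 := ROW_get R (rows R o A).1 (step R (sh R ((rows R o A).2.getLastD 0))
      (sh R ((rows R o A).1.getLastD 0)) ((rows R o A).2.headD 0)) ((rows R o A).2.drop 1) j
      (by rw [(hlen A).1]; omega) (by rw [List.length_drop, (hlen A).2]; omega)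
    rw [← ROW_next, ROW_drop, ROW_second] at h1
    exact h1

end Pool.Agent.UL
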