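import Pool.Agent.helper7.UL.Spec

set_option autoImplicit false

namespace Pool.Agent.UL

open Finset

/-- removing the highest bit -/
theorem BDN_bit (c L : ℕ) (h1 : 2 ^ L ≤ c) (h2 : c < 2 ^ (L + 1)) (i : ℕ) :
    (c.testBit i = true ↔ i = L ∨ (c - 2 ^ L).testBit i = true) ∧ (c - 2 ^ L).testBit L = false := by
  obtain ⟨c', rfl⟩ : ∃ c', c = 2 ^ L + c' := ⟨c - 2 ^ L, by omega⟩
  have hc' : c' < 2 ^ L := by
    rw [pow_succ] at h2
    omega
  have e : 2 ^ L + c' - 2 ^ L = c' := by omega
  rw [e]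
  have hL : c'.testBit L = false := Nat.testBit_lt_two_pow hc'
  refine ⟨?_, hL⟩
  rcases Nat.lt_trichotomy i L with h | h | h
  · rw [Nat.testBit_two_pow_add_gt h]
    constructor
    · intro h3
      exact Or.inr h3
    · rintro (h3 | h3)
      · omega
      · exact h3
  · subst h
    rw [Nat.testBit_two_pow_add_eq, hL]
    simp
  · have h4 : (2 ^ L + c').testBit i = false :=
      Nat.testBit_lt_two_pow (h2.trans_le (Nat.pow_le_pow_right (by norm_num) h))
    have h5 : c'.testBit i = false :=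
      Nat.testBit_lt_two_pow (hc'.trans_le (Nat.pow_le_pow_right (by norm_num) h.le))
    rw [h4, h5]
    constructor
    · intro h6
      exact absurd h6 (by simp)
    · rintro (h6 | h6)
      · omega
      · exact absurd h6 (by simp)

theorem BDN_aux (R k : ℕ) (hk : k ≤ R + 4) : ∀ c : ℕ, c < 2 ^ k → (bitsDown R k c).Nodup ∧
    ∀ s, s ∈ bitsDown R k c ↔ s ≤ R + 3 ∧ c.testBit (R + 3 - s) = true := by
  induction k with
  | zero =>
    intro c hc
    have h0 : c = 0 := by
      rw [pow_zero] at hc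
      omega
    subst h0
    refine ⟨List.nodup_nil, fun s => ?_⟩
    rw [Nat.zero_testBit]
    simp [bitsDown]
  | succ k ih =>
    intro c hc
    by_cases h0 : c = 0
    · subst h0
      unfold bitsDown
      rw [if_pos rfl]
      refine ⟨List.nodup_nil, fun s => ?_⟩
      rw [Nat.zero_testBit]
      simp
    · unfold bitsDown
      rw [if_neg h0]
      have hLk : c.log2 < k + 1 := (Nat.log2_lt h0).2 hc
      have h1 : 2 ^ c.log2 ≤ c := Nat.log2_self_le h0
      have h2 : c < 2 ^ (c.log2 + 1) := Nat.lt_log2_self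
      obtain ⟨L, hL⟩ : ∃ L, L = c.log2 := ⟨_, rfl⟩
      rw [← hL] at hLk h1 h2 ⊢
      have h3 : c - 2 ^ L < 2 ^ k := by
        have h4 : 2 ^ L ≤ 2 ^ k := Nat.pow_le_pow_right (by norm_num) (by omega)
        rw [pow_succ] at h2
        omega
      obtain ⟨ih1, ih2⟩ := ih (by omega) (c - 2 ^ L) h3
      have hbit := fun i => BDN_bit c L h1 h2 i
      refine ⟨?_, fun s => ?_⟩
      · rw [List.nodup_cons]
        refine ⟨fun hmem => ?_, ih1⟩
        rw [ih2] at hmem
        have e : R + 3 - (R + 3 - L) = L := by omega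
        rw [e, (hbit L).2] at hmem
        exact absurd hmem.2 (by simp)
      · rw [List.mem_cons, ih2, (hbit (R + 3 - s)).1]
        constructor
        · rintro (h5 | ⟨h5, h6⟩)
          · exact ⟨by omega, Or.inl (by omega)⟩
          · exact ⟨h5, Or.inr h6⟩
        · rintro ⟨h5, h6 | h6⟩
          · exact Or.inl (by omega)
          · exact Or.inr ⟨h5, h6⟩

theorem BDN : BDN_stmt := by
  intro R c hc
  obtain ⟨h1, h2⟩ := BDN_aux R (R + 4) le_rfl c hc
  refine ⟨h1, h2, fun b hb => ?_, ?_⟩
  · unfold ess at hb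
    simp only [Nat.testBit_and, Bool.and_eq_true] at hb
    exact hb.1
  · unfold ess
    exact lt_of_le_of_lt Nat.and_le_left hc

end Pool.Agent.UL
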